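import Pool.Agent.H15.HLU.Targets

/-!
# Row UNI of the board hlu_modules: the theorem
-/

set_option autoImplicit false

namespace Pool.Agent.H40.HLU

open Pool.Agent.H51.Homog Pool.Agent.H22.HSQ Pool.Agent.H15.HLS Pool.Agent.H15.HLU

theorem pf_UNI (hLAR : T_LAR) (hMAI : T_MAI) : T_UNI := by
  choose n₀ hn₀ using hMAI
  obtain ⟨C, hC⟩ := hLAR
  refine ⟨C + ∑ h ∈ Finset.range 1200, n₀ h + 1, fun h n hn =>
    ⟨fun H => four_dvd_of_isOrder H, fun hd => ?_⟩⟩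
  obtain ⟨A, hA⟩ : ∃ A : ℕ, A = C + ∑ h ∈ Finset.range 1200, n₀ h + 1 := ⟨_, rfl⟩
  rw [← hA] at hn
  by_cases hh : h < 1200
  · refine (hn₀ h n ?_).2 hd
    have h1 : n₀ h ≤ ∑ h ∈ Finset.range 1200, n₀ h :=
      Finset.single_le_sum (f := n₀) (fun _ _ => Nat.zero_le _) (Finset.mem_range.2 hh)
    calc n₀ h ≤ A := by omega
      _ = A * 1 := (Nat.mul_one A).symm
      _ ≤ A * (h + 1) ^ A := Nat.mul_le_mul le_rfl (Nat.one_le_pow _ _ (Nat.succ_pos h))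
      _ ≤ n := hn
  · refine hC h n (by omega) hd (le_trans ?_ hn)
    exact Nat.mul_le_mul (by omega) (Nat.pow_le_pow_right (Nat.succ_pos h) (by omega))

end Pool.Agent.H40.HLU
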